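import Pool.Agent.MP_e7ec4f_an.dq.Primal

/-! The test vectors. -/

set_option autoImplicit false

namespace Pool.Agent.E7DQ

open Finset

variable {𝕂 : Type} [RCLike 𝕂]

lemma sum_hw {j : ℕ} (h : 1 ≤ j) : ∑ n ∈ P j, ht n * wt n = 1 := by
  rw [sum_congr rfl (g := fun n => (1 / 2 : ℝ) ^ dp j * wt n) fun n hn => by rw [ht, mem_P.1 hn],
    ← mul_sum, sum_wt h, one_div, inv_pow]
  field_simp

lemma lam_pow (M : ℕ) : lam (2 ^ M) = (1 / 2) ^ M := by rw [lam, padicValNat.prime_pow]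

lemma st_lt {j : ℕ} (h : 1 ≤ j) : st j < st (j + 1) := by
  have : 0 < cs j := by
    unfold cs
    rw [if_neg (by omega)]
    positivity
  rw [st_succ]
  omega

/-- A vector whose coordinates are dominated by the weights and whose block sums have bounded
partial sums has bounded norm. -/
lemma bound_of (M : ℕ) (a : ℕ → 𝕂) (h1 : ∀ n, ‖a n‖ ≤ 3 * wt n)
    (h2 : ∀ j, 2 ^ M ≤ j → j ≤ 2 ^ (M + 1) →
      ‖∑ p ∈ Ico (2 ^ M) j, ∑ n ∈ P p, (ht n : 𝕂) * a n‖ ≤ 2) {γ : ℕ → 𝕂} (ad : Adm M γ) :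
    ‖∑ n ∈ G M, γ n * a n‖ ≤ 5 := by
  rcases ad.2.2 with b | ⟨k, b⟩
  · refine (norm_sum_le _ _).trans ((sum_le_sum (g := fun n => 3 * (wt n * ‖γ n‖))
      fun n _ => ?_).trans ?_)
    · rw [norm_mul]
      have := mul_le_mul_of_nonneg_left (h1 n) (norm_nonneg (γ n))
      linarith
    · rw [← mul_sum]
      linarith
  have hp : 1 ≤ 2 ^ M := Nat.one_le_two_pow
  have hq : 1 ≤ 2 ^ (M + 1) := Nat.one_le_two_pow
  have e1 : ∑ n ∈ G M, γ n * a n =
      ∑ n ∈ Ico (st (2 ^ M)) (min k (st (2 ^ (M + 1)))), (ht n : 𝕂) * a n := by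
    rw [sum_congr rfl (g := fun n => if n < k then (ht n : 𝕂) * a n else 0) fun n hn => by
      rw [b n hn]; split_ifs <;> simp, ← sum_filter]
    refine sum_congr ?_ fun _ _ => rfl
    ext n
    simp only [G, mem_filter, mem_Ico]
    omega
  rw [e1]
  have m1 := min_le_right k (st (2 ^ (M + 1)))
  generalize min k (st (2 ^ (M + 1))) = l at m1
  by_cases c : l ≤ st (2 ^ M)
  · rw [Ico_eq_empty_of_le c]
    simp
  have j1 : 2 ^ M ≤ blk l := st_le.1 (by omega)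
  have j2 : blk l < 2 ^ (M + 1) + 1 := lt_st.1 (m1.trans_lt (st_lt hq))
  have j3 : st (blk l) ≤ l := st_le.2 le_rfl
  have j4 : l < st (blk l + 1) := lt_st.2 (by omega)
  rw [← sum_Ico_consecutive _ (st_mono j1) j3, sum_blocks _ j1]
  have t1 := h2 (blk l) j1 (by omega)
  have t2 : ‖∑ n ∈ Ico (st (blk l)) l, (ht n : 𝕂) * a n‖ ≤ 3 := by
    refine (norm_sum_le _ _).trans ((sum_le_sum (g := fun n => 3 * (ht n * wt n))
      fun n _ => ?_).trans ?_)
    · rw [norm_mul, RCLike.norm_ofReal, abs_of_pos (ht_pos n)]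
      have := mul_le_mul_of_nonneg_left (h1 n) (ht_pos n).le
      linarith
    · rw [← mul_sum]
      have : ∑ n ∈ Ico (st (blk l)) l, ht n * wt n ≤ ∑ n ∈ P (blk l), ht n * wt n :=
        sum_le_sum_of_subset_of_nonneg (Ico_subset_Ico le_rfl j4.le)
          fun n _ _ => (mul_pos (ht_pos n) (wt_pos n)).le
      rw [sum_hw (by omega)] at this
      linarith
  exact (norm_add_le _ _).trans (by linarith)

theorem core0 (M : ℕ) (c : ℕ → 𝕂) (hc : ∀ n, ‖c n‖ ≤ 1) (D : Finset ℕ)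
    (hD : ∀ n ∈ D, 3 / 4 ≤ ‖c n‖) : ∃ a : ℕ → 𝕂, (∀ γ, Adm M γ → ‖∑ n ∈ G M, γ n * a n‖ ≤ 5) ∧
      ∑ n ∈ G M ∩ D, wt n ≤ 1 + 8 * RCLike.re (∑ n ∈ G M, a n * c n) := by
  choose σ σ1 σ2 using fun n => RCLike.exists_norm_eq_mul_self (c n)
  set θ : ℕ → ℝ := fun j => (1 / 2) ^ dp j * ∑ n ∈ P j ∩ D, wt n with hθ
  set τ : ℕ → 𝕂 := fun j => ∑ n ∈ P j ∩ D, (ht n : 𝕂) * ((wt n : 𝕂) * σ n) with hτ
  have wD : ∀ j, ∑ n ∈ P j ∩ D, wt n ≤ 2 ^ dp j := by
    intro j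
    rcases Nat.eq_zero_or_pos j with rfl | h
    · simp [P, st_one]
    · rw [← sum_wt h]
      exact sum_le_sum_of_subset_of_nonneg inter_subset_left fun n _ _ => (wt_pos n).le
  have wθ : ∀ j, ∑ n ∈ P j ∩ D, wt n = 2 ^ dp j * θ j := by
    intro j
    simp only [hθ, one_div, inv_pow]
    field_simp
  have h1 : ∀ j, θ j ≤ 1 := by
    intro j
    have := wD j
    rw [wθ j] at this
    exact (mul_le_iff_le_one_right (by positivity)).1 this
  have h2 : ∀ j, ‖τ j‖ ≤ θ j := by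
    intro j
    simp only [hθ, hτ, mul_sum]
    refine (norm_sum_le _ _).trans (sum_le_sum fun n hn => le_of_eq ?_)
    rw [norm_mul, norm_mul, σ1, RCLike.norm_ofReal, RCLike.norm_ofReal, abs_of_pos (ht_pos n),
      abs_of_pos (wt_pos n), mul_one, ht, mem_P.1 (mem_inter.1 hn).1]
  obtain ⟨η, κ, H, S⟩ := exists_sel θ τ h1 h2 M 1
  rw [mul_one] at S
  have e2 : 2 ^ M + 2 ^ M = 2 ^ (M + 1) := by ring
  have hp : 1 ≤ 2 ^ M := Nat.one_le_two_pow
  have η0 : ∀ j, 0 ≤ η j := fun j => by rcases S.e01 j with r | r <;> simp [r]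
  have η1 : ∀ j, η j ≤ 1 := fun j => by rcases S.e01 j with r | r <;> simp [r]
  refine ⟨fun n => (if n ∈ D then (η (blk n) : 𝕂) * ((wt n : 𝕂) * σ n) else 0) -
    κ (blk n) * wt n, fun γ ad => bound_of M _ (fun n => ?_) (fun j j1 j2 => ?_) ad, ?_⟩
  · have a1 : ‖if n ∈ D then (η (blk n) : 𝕂) * ((wt n : 𝕂) * σ n) else 0‖ ≤ wt n := by
      split_ifs
      · rw [norm_mul, norm_mul, σ1, RCLike.norm_ofReal, RCLike.norm_ofReal, abs_of_pos (wt_pos n),
          abs_of_nonneg (η0 _), mul_one]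
        exact mul_le_of_le_one_left (wt_pos n).le (η1 _)
      · simpa using (wt_pos n).le
    have a2 : ‖κ (blk n) * (wt n : 𝕂)‖ ≤ 2 * wt n := by
      rw [norm_mul, RCLike.norm_ofReal, abs_of_pos (wt_pos n)]
      exact mul_le_mul_of_nonneg_right (S.k2 _) (wt_pos n).le
    exact (norm_sub_le _ _).trans (by linarith)
  · refine le_of_eq_of_le (congrArg _ (sum_congr rfl fun p hp' => ?_))
      ((S.ps j j1 (by omega)).trans S.H2)
    have p1 : 1 ≤ p := hp.trans (mem_Ico.1 hp').1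
    have : (∑ n ∈ P p, (ht n : 𝕂) * (wt n : 𝕂)) = 1 := by exact_mod_cast sum_hw p1
    simp only [mul_sub, sum_sub_distrib, hτ, mul_sum, mul_ite, mul_zero, sum_ite_mem]
    congr 1
    · refine sum_congr rfl fun n hn => ?_
      rw [mem_P.1 (mem_inter.1 hn).1]
      ring
    · rw [← mul_one (κ p), ← this, mul_sum]
      refine sum_congr rfl fun n hn => ?_
      rw [mem_P.1 hn]
      ring
  · have gain : ∀ p, 2 ^ M ≤ p → p < 2 ^ (M + 1) →
        2 ^ M * (3 / 4 * (η p * θ p * lam p) - ‖κ p‖ * lam p) ≤ RCLike.re (∑ n ∈ P p,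
          ((if n ∈ D then (η (blk n) : 𝕂) * ((wt n : 𝕂) * σ n) else 0) - κ (blk n) * wt n) *
            c n) := by
      intro p p1 p2
      have d := two_dp p1 p2
      have g1 : 3 / 4 * (η p * ∑ n ∈ P p ∩ D, wt n) ≤ RCLike.re (∑ n ∈ P p,
          (if n ∈ D then (η (blk n) : 𝕂) * ((wt n : 𝕂) * σ n) else 0) * c n) := by
        simp only [ite_mul, zero_mul, sum_ite_mem, mul_assoc, ← σ2]
        rw [map_sum, mul_sum, mul_sum]
        refine sum_le_sum fun n hn => ?_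
        rw [← RCLike.ofReal_mul, ← RCLike.ofReal_mul, RCLike.ofReal_re, mem_P.1 (mem_inter.1 hn).1]
        have := mul_le_mul_of_nonneg_left (hD n (mem_inter.1 hn).2)
          (mul_nonneg (η0 p) (wt_pos n).le)
        linarith
      have g2 : ‖∑ n ∈ P p, κ (blk n) * wt n * c n‖ ≤ ‖κ p‖ * 2 ^ dp p := by
        rw [← sum_wt (hp.trans p1), mul_sum]
        refine (norm_sum_le _ _).trans (sum_le_sum fun n hn => ?_)
        rw [norm_mul, norm_mul, RCLike.norm_ofReal, abs_of_pos (wt_pos n), mem_P.1 hn]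
        exact mul_le_of_le_one_right (mul_nonneg (norm_nonneg _) (wt_pos n).le) (hc n)
      have g3 := RCLike.re_le_norm (∑ n ∈ P p, κ (blk n) * wt n * c n)
      simp only [sub_mul, sum_sub_distrib, map_sub]
      rw [wθ p, d] at g1
      rw [d] at g2
      linarith
    have w1 : ∑ n ∈ G M ∩ D, wt n = ∑ p ∈ Ico (2 ^ M) (2 ^ (M + 1)), 2 ^ M * (θ p * lam p) := by
      rw [← sum_ite_mem, G, sum_blocks _ (by omega)]
      refine sum_congr rfl fun p hp' => ?_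
      rw [sum_ite_mem, wθ p, two_dp (mem_Ico.1 hp').1 (mem_Ico.1 hp').2]
      ring
    have w2 := sum_le_sum (s := Ico (2 ^ M) (2 ^ (M + 1)))
      fun p hp' => gain p (mem_Ico.1 hp').1 (mem_Ico.1 hp').2
    rw [← map_sum, ← sum_blocks _ (by omega), ← mul_sum, sum_sub_distrib, ← mul_sum,
      sum_eq_sum_Ico_succ_bot (by omega), sum_eq_sum_Ico_succ_bot (a := 2 ^ M) (by omega), S.eL,
      lam_pow] at w2
    rw [w1, ← mul_sum, sum_eq_sum_Ico_succ_bot (by omega), lam_pow]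
    have a1 := S.dam
    have a2 := S.kept
    have a3 := S.all
    have a4 := S.sat
    rw [e2] at a1 a2 a3 a4
    have hw : (0 : ℝ) < (1 / 2) ^ M := by positivity
    have hv : (0 : ℝ) < 2 ^ M := by positivity
    have a5 := mul_nonneg S.H0 hw.le
    have a6 : ∑ p ∈ Ico (2 ^ M + 1) (2 ^ (M + 1)), θ p * lam p ≤
        2 * ∑ p ∈ Ico (2 ^ M + 1) (2 ^ (M + 1)), η p * θ p * lam p := by
      by_cases v : H ≤ 1
      · have := a3 v
        linarith
      · have := a4 (not_le.1 v)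
        linarith
    have a7 : (2 : ℝ) ^ M * (θ (2 ^ M) * (1 / 2) ^ M) ≤ 1 := by
      rw [mul_left_comm, ← mul_pow]
      simpa using h1 _
    have a8 := mul_le_mul_of_nonneg_left a1 hv.le
    have a9 := mul_le_mul_of_nonneg_left a6 hv.le
    unfold G
    linarith

theorem core (M : ℕ) (c : ℕ → 𝕂) (hc : ∀ n, ‖c n‖ ≤ 1) (D : Finset ℕ)
    (hD : ∀ n ∈ D, 3 / 4 ≤ ‖c n‖) {n0 : ℕ} (h0 : n0 ∈ D) (h1 : grp n0 = M) :
    ∃ a : ℕ → 𝕂, (∀ γ, Adm M γ → ‖∑ n ∈ G M, γ n * a n‖ ≤ 6) ∧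
      1 + ∑ n ∈ G M ∩ D, wt n ≤ 8 * RCLike.re (∑ n ∈ G M, a n * c n) := by
  obtain ⟨a, a1, a2⟩ := core0 M c hc D hD
  obtain ⟨σ, σ1, σ2⟩ := RCLike.exists_norm_eq_mul_self (c n0)
  have g := mem_G.2 h1
  refine ⟨fun n => a n + if n = n0 then σ else 0, fun γ ad => ?_, ?_⟩
  · simp only [mul_add, sum_add_distrib, mul_ite, mul_zero, sum_ite_eq', if_pos g]
    have := a1 γ ad
    have := ad.1 n0
    refine (norm_add_le _ _).trans ?_
    rw [norm_mul, σ1]
    linarith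
  · simp only [add_mul, sum_add_distrib, ite_mul, zero_mul, sum_ite_eq', if_pos g, ← σ2, map_add,
      RCLike.ofReal_re]
    have := hD n0 h0
    linarith

end Pool.Agent.E7DQ
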