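import Mathlib

/-! Quasi-greedy bases. -/

set_option autoImplicit false

namespace Pool.Agent.E7DQ

variable {𝕂 : Type} [RCLike 𝕂] {X : Type} [AddCommGroup X] [Module 𝕂 X]

/-- Quasi-greedy, in the sense of the problem file. -/
def IsQG (q : X → ℝ) (x : ℕ → X) (xs : ℕ → X →ₗ[𝕂] 𝕂) : Prop :=
  ∃ C : ℝ, ∀ f : X, ∀ A : Finset ℕ, (∀ n ∈ A, ∀ k : ℕ, k ∉ A → ‖xs k f‖ ≤ ‖xs n f‖) →
    q (∑ n ∈ A, xs n f • x n) ≤ C * q f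

/-- The truncation estimate fails by the factor `L` on a greedy set of at most `m` points. -/
def Fails (q : X → ℝ) (x : ℕ → X) (xs : ℕ → X →ₗ[𝕂] 𝕂) (m : ℕ) (L : ℝ) : Prop :=
  ∃ (f : X) (A : Finset ℕ) (t : ℝ), f ≠ 0 ∧ A.Nonempty ∧ A.card ≤ m ∧
    (∀ n ∈ A, ∀ k : ℕ, k ∉ A → ‖xs k f‖ ≤ ‖xs n f‖) ∧ (∀ n ∈ A, t ≤ ‖xs n f‖) ∧
    L * q f ≤ t * q (∑ n ∈ A, (xs n f / ((‖xs n f‖ : ℝ) : 𝕂)) • x n)

variable {Y : Type} [NormedAddCommGroup Y] [NormedSpace 𝕂 Y]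

/-- The coordinate functionals as linear maps. -/
def co (ys : ℕ → StrongDual 𝕂 Y) (n : ℕ) : Y →ₗ[𝕂] 𝕂 := (ys n).toLinearMap

/-- The coordinate functionals of the dual basis: evaluation at the basis vectors. -/
noncomputable def ev (𝕂 : Type) [RCLike 𝕂] {Y : Type} [NormedAddCommGroup Y] [NormedSpace 𝕂 Y]
    (y : ℕ → Y) (n : ℕ) : StrongDual 𝕂 Y →ₗ[𝕂] 𝕂 :=
  (ContinuousLinearMap.apply 𝕂 𝕂 (y n)).toLinearMap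

end Pool.Agent.E7DQ
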