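import Pool.Agent.MP_e7ec4f_an.dq.Core

/-! The dual basis is a nearly unconditional Schauder basis. -/

set_option autoImplicit false

namespace Pool.Agent.E7DQ

open Finset Filter

variable {𝕂 : Type} [RCLike 𝕂] {Y : Type} [NormedAddCommGroup Y] [NormedSpace 𝕂 Y] {x : ℕ → Y}
  {xs : ℕ → StrongDual 𝕂 Y}

lemma comb_apply (φ : StrongDual 𝕂 Y) (A : Finset ℕ) (h : Y) :
    (∑ n ∈ A, φ (x n) • xs n) h = φ (∑ n ∈ A, xs n h • x n) := by
  rw [_root_.sum_apply, map_sum]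
  simp only [_root_.smul_apply, map_smul, smul_eq_mul, mul_comm]

lemma Str.glue (H : Str x xs) (K : ℕ) {g1 g2 : Y} {C : ℝ} (h1 : ‖g1‖ ≤ C) (h2 : ‖g2‖ ≤ C)
    (z1 : ∀ n, st (2 ^ K) ≤ n → xs n g1 = 0) (z2 : ∀ n, n < st (2 ^ K) → xs n g2 = 0) :
    ‖g1 + g2‖ ≤ C := by
  refine H.up _ _ ((norm_nonneg _).trans h1) fun M γ a => ?_
  by_cases c : M < K
  · refine le_of_eq_of_le (congrArg _ (sum_congr rfl fun n hn => ?_)) ((H.low g1 M γ a).trans h1)
    rw [map_add, z2 n (lt_st.2 ((mem_G'.1 hn).2.trans_le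
      (Nat.pow_le_pow_right (by norm_num) c))), add_zero]
  · refine le_of_eq_of_le (congrArg _ (sum_congr rfl fun n hn => ?_)) ((H.low g2 M γ a).trans h2)
    rw [map_add, z1 n (st_le.2 ((Nat.pow_le_pow_right (by norm_num) (not_lt.1 c)).trans
      (mem_G'.1 hn).1)), zero_add]

theorem Str.shrink (H : Str x xs) (φ : StrongDual 𝕂 Y) :
    Tendsto (fun m => ‖φ - ∑ n ∈ range m, φ (x n) • xs n‖) atTop (nhds 0) := by
  refine Metric.tendsto_atTop.2 fun ε hε => ?_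
  obtain ⟨h1, n1, n2⟩ := φ.exists_lt_apply_of_lt_opNorm (r := ‖φ‖ - ε / 3) (by linarith)
  have t1 : Tendsto (fun m => ∑ n ∈ range m, xs n h1 • x n) atTop (nhds h1) :=
    tendsto_iff_norm_sub_tendsto_zero.2 (by simpa only [norm_sub_rev] using H.schauder h1)
  have t2 := ((φ.continuous.tendsto h1).comp t1).norm.eventually (lt_mem_nhds n2)
  obtain ⟨K, hK⟩ := eventually_atTop.1 t2
  have k1 : K ≤ st (2 ^ K) := (le_st K).trans (st_mono Nat.lt_two_pow_self)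
  have k2 := hK _ k1
  simp only [Function.comp] at k2
  set g1 := ∑ n ∈ range (st (2 ^ K)), xs n h1 • x n with hg1
  have key : ∀ g2 : Y, ‖g2‖ ≤ 1 → (∀ n, n < st (2 ^ K) → xs n g2 = 0) → ‖φ g2‖ ≤ ε / 3 := by
    intro g2 b z
    obtain ⟨a1, a2, a3⟩ := RCLike.exists_norm_eq_mul_self (φ g1)
    obtain ⟨b1, b2, b3⟩ := RCLike.exists_norm_eq_mul_self (φ g2)
    have u := H.glue K (g1 := a1 • g1) (g2 := b1 • g2) (C := 1)
      (by rw [norm_smul, a2, one_mul]; exact (H.mono _ _).trans n1.le)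
      (by rw [norm_smul, b2, one_mul]; exact b)
      (fun n hn => by rw [map_smul, hg1, H.coef, if_neg (by simpa using hn), smul_zero])
      (fun n hn => by rw [map_smul, z n hn, smul_zero])
    have v := φ.le_opNorm_of_le u
    rw [map_add, map_smul, map_smul, smul_eq_mul, smul_eq_mul, ← a3, ← b3, ← RCLike.ofReal_add,
      RCLike.norm_ofReal, abs_of_nonneg (by positivity)] at v
    linarith
  refine ⟨st (2 ^ K), fun m hm => ?_⟩
  rw [Real.dist_eq, sub_zero, abs_norm]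
  refine lt_of_le_of_lt (b := 2 * (ε / 3)) (not_lt.1 fun c => ?_) (by linarith)
  obtain ⟨h, hh, h2⟩ := ContinuousLinearMap.exists_lt_apply_of_lt_opNorm _ c
  have := key (((2⁻¹ : ℝ) : 𝕂) • (h - ∑ n ∈ range m, xs n h • x n)) (by
    rw [norm_smul, RCLike.norm_ofReal, abs_of_pos (by norm_num)]
    have := norm_sub_le h (∑ n ∈ range m, xs n h • x n)
    have := H.mono h m
    linarith) (fun n hn => by
    rw [map_smul, map_sub, H.coef, if_pos (mem_range.2 (by omega)), sub_self, smul_zero])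
  rw [map_smul, norm_smul, RCLike.norm_ofReal, abs_of_pos (by norm_num), map_sub] at this
  rw [_root_.sub_apply, comb_apply] at h2
  linarith

theorem Str.key (H : Str x xs) (φ : StrongDual 𝕂 Y) (hc : ∀ n, ‖φ (x n)‖ ≤ 1) (D : Finset ℕ)
    (hD : ∀ n ∈ D, 3 / 4 ≤ ‖φ (x n)‖) :
    ∑ M ∈ D.image grp, (1 + ∑ n ∈ G M ∩ D, wt n) ≤ 48 * ‖φ‖ := by
  have ex : ∀ M, ∃ a : ℕ → 𝕂, M ∈ D.image grp → (∀ γ, Adm M γ → ‖∑ n ∈ G M, γ n * a n‖ ≤ 6) ∧
      1 + ∑ n ∈ G M ∩ D, wt n ≤ 8 * RCLike.re (∑ n ∈ G M, a n * φ (x n)) := by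
    intro M
    by_cases c : M ∈ D.image grp
    · obtain ⟨n0, h0, h1⟩ := mem_image.1 c
      obtain ⟨a, ha⟩ := core M _ hc D hD h0 h1
      exact ⟨a, fun _ => ha⟩
    · exact ⟨0, fun e => absurd e c⟩
  choose a ha using ex
  have nb : ‖∑ M ∈ D.image grp, ∑ n ∈ G M, a M n • x n‖ ≤ 6 := by
    refine H.up _ _ (by norm_num) fun M γ ad => ?_
    have : ∀ n ∈ G M, xs n (∑ M ∈ D.image grp, ∑ n ∈ G M, a M n • x n) =
        if M ∈ D.image grp then a M n else 0 := by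
      intro n hn
      rw [map_sum]
      simp only [H.coef, mem_G, mem_G.1 hn, sum_ite_eq]
    rw [sum_congr rfl fun n hn => by rw [this n hn]]
    split_ifs with c
    · exact (ha M c).1 γ ad
    · simp
  have v := (RCLike.re_le_norm _).trans (φ.le_opNorm_of_le nb)
  rw [map_sum, map_sum] at v
  refine (sum_le_sum fun M hM => (ha M hM).2).trans ?_
  rw [← mul_sum]
  simp only [map_sum φ, map_smul, smul_eq_mul] at v
  linarith

lemma Str.upper (H : Str x xs) (D : Finset ℕ) {b : ℕ → 𝕂} (hb : ∀ n ∈ D, ‖b n‖ ≤ 1) :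
    ‖∑ n ∈ D, b n • xs n‖ ≤ ∑ M ∈ D.image grp, (1 + ∑ n ∈ G M ∩ D, wt n) := by
  have w0 : ∀ M, 0 ≤ ∑ n ∈ G M ∩ D, wt n := fun M => sum_nonneg fun n _ => (wt_pos n).le
  refine ContinuousLinearMap.opNorm_le_bound _ (sum_nonneg fun M _ => by linarith [w0 M])
    fun h => ?_
  rw [_root_.sum_apply, ← sum_fiberwise_of_maps_to (g := grp) (t := D.image grp)
    (fun n hn => mem_image_of_mem _ hn), sum_mul]
  refine (norm_sum_le _ _).trans (sum_le_sum fun M _ => ?_)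
  have : D.filter (fun n => grp n = M) = G M ∩ D := by
    ext n
    simp only [mem_filter, mem_inter, mem_G, and_comm]
  rw [this]
  exact H.test h inter_subset_left (fun n hn => hb n (mem_inter.1 hn).2) (by linarith [w0 M])
    (by linarith)

lemma Str.nu0 (H : Str x xs) (φ : StrongDual 𝕂 Y) (hc : ∀ n, ‖φ (x n)‖ ≤ 1) (D : Finset ℕ)
    (hD : ∀ n ∈ D, 3 / 4 ≤ ‖φ (x n)‖) : ‖∑ n ∈ D, φ (x n) • xs n‖ ≤ 48 * ‖φ‖ :=
  (H.upper D fun n _ => hc n).trans (H.key φ hc D hD)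

lemma Str.fin (H : Str x xs) (φ : StrongDual 𝕂 Y) :
    ∃ B : Finset ℕ, ∀ n, n ∈ B ↔ 3 / 4 ≤ ‖φ (x n)‖ := by
  obtain ⟨m, hm⟩ := eventually_atTop.1
    ((H.shrink φ).eventually (gt_mem_nhds (show (0 : ℝ) < 3 / 4 by norm_num)))
  refine ⟨(range m).filter (fun n => 3 / 4 ≤ ‖φ (x n)‖), fun n => ?_⟩
  rw [mem_filter, and_iff_right_iff_imp]
  intro h
  by_contra c
  have := (φ - ∑ n ∈ range m, φ (x n) • xs n).le_opNorm_of_le (H.x_le n)
  rw [_root_.sub_apply, H.coef', if_neg c, sub_zero] at this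
  have := hm m le_rfl
  linarith

theorem Str.nu (H : Str x xs) (k : ℕ) : ∃ C : ℝ, 0 ≤ C ∧ ∀ φ : StrongDual 𝕂 Y,
    (∀ n, ‖φ (x n)‖ ≤ 1) → ∀ A : Finset ℕ, (∀ n ∈ A, (3 / 4) ^ (k + 1) ≤ ‖φ (x n)‖) →
      ‖∑ n ∈ A, φ (x n) • xs n‖ ≤ C * ‖φ‖ := by
  induction k with
  | zero => exact ⟨48, by norm_num, fun φ hc A hA => H.nu0 φ hc A (by simpa using hA)⟩
  | succ k ih =>
    obtain ⟨C, C0, hC⟩ := ih
    refine ⟨48 + 49 * C, by positivity, fun φ hc A hA => ?_⟩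
    obtain ⟨B, hB⟩ := H.fin φ
    set ψ := (((4 / 3 : ℝ)) : 𝕂) • (φ - ∑ n ∈ B, φ (x n) • xs n) with hψ
    have n43 : ‖(((4 / 3 : ℝ)) : 𝕂)‖ = 4 / 3 := by
      rw [RCLike.norm_ofReal, abs_of_pos (by norm_num)]
    have cψ : ∀ n, ψ (x n) = if n ∈ B then 0 else (((4 / 3 : ℝ)) : 𝕂) * φ (x n) := by
      intro n
      rw [hψ, _root_.smul_apply, _root_.sub_apply, H.coef']
      split_ifs <;> simp
    have b1 := H.nu0 φ hc B fun n hn => (hB n).1 hn
    have b2 := H.nu0 φ hc (A ∩ B) fun n hn => (hB n).1 (mem_inter.1 hn).2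
    have b3 : ‖ψ‖ ≤ 4 / 3 * (49 * ‖φ‖) := by
      rw [hψ, norm_smul, n43]
      have := norm_sub_le φ (∑ n ∈ B, φ (x n) • xs n)
      linarith
    have b4 := hC ψ (fun n => by
      rw [cψ]
      split_ifs with c
      · simp
      · rw [norm_mul, n43]
        have := not_le.1 (mt (hB n).2 c)
        linarith) (A \ B) fun n hn => by
      rw [cψ, if_neg (mem_sdiff.1 hn).2, norm_mul, n43]
      have := hA n (mem_sdiff.1 hn).1
      rw [pow_succ] at this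
      linarith
    have b5 : ∑ n ∈ A \ B, ψ (x n) • xs n =
        (((4 / 3 : ℝ)) : 𝕂) • ∑ n ∈ A \ B, φ (x n) • xs n := by
      rw [smul_sum]
      exact sum_congr rfl fun n hn => by rw [cψ, if_neg (mem_sdiff.1 hn).2, mul_smul]
    rw [b5, norm_smul, n43] at b4
    rw [← sum_inter_add_sum_sdiff A B]
    have := mul_le_mul_of_nonneg_left b3 C0
    exact (norm_add_le _ _).trans (by linarith)

end Pool.Agent.E7DQ
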