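import Pool.Agent.MP_e7ec4f_an.dq.Dual
import Pool.Agent.MP_e7ec4f_an.dq.Defs
import Pool.Agent.MP_e7ec4f_an.IsoDefs
import Pool.Agent.MP_e7ec4f_an.C0Defs

/-! The dual basis is not truncation quasi-greedy. -/

set_option autoImplicit false

namespace Pool.Agent.E7DQ

open Finset Filter Pool.Agent.E7Iso Pool.Agent.E7C0

variable {𝕂 : Type} [RCLike 𝕂] {Y : Type} [NormedAddCommGroup Y] [NormedSpace 𝕂 Y] {x : ℕ → Y}
  {xs : ℕ → StrongDual 𝕂 Y}

lemma sum_lam (a b : ℕ) : (b : ℝ) ≤ ∑ j ∈ Ico (2 * a) (2 * a + 2 * b), lam j := by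
  induction b with
  | zero => simp
  | succ b ih =>
    have e : lam (2 * a + 2 * b + 1) = 1 := by
      rw [lam, padicValNat.eq_zero_of_not_dvd (by omega), pow_zero]
    rw [show 2 * a + 2 * (b + 1) = 2 * a + 2 * b + 1 + 1 by ring, sum_Ico_succ_top (by omega),
      sum_Ico_succ_top (by omega), e]
    have := lam_pos (2 * a + 2 * b)
    push_cast
    linarith

lemma wt_G (M : ℕ) : (2 : ℝ) ^ (M + 1) * 2 ^ M ≤ ∑ n ∈ G (M + 1), wt n := by
  have hp : 1 ≤ 2 ^ (M + 1) := Nat.one_le_two_pow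
  have := sum_lam (2 ^ M) (2 ^ M)
  rw [show 2 * 2 ^ M + 2 * 2 ^ M = 2 ^ (M + 1 + 1) by ring, show 2 * 2 ^ M = 2 ^ (M + 1) by ring]
    at this
  rw [G, sum_blocks _ (Nat.pow_le_pow_right (by norm_num) (by omega)),
    sum_congr rfl (g := fun j => 2 ^ (M + 1) * lam j) fun j hj => by
      rw [sum_wt (hp.trans (mem_Ico.1 hj).1), two_dp (mem_Ico.1 hj).1 (mem_Ico.1 hj).2],
    ← mul_sum]
  exact mul_le_mul_of_nonneg_left (by exact_mod_cast this) (by positivity)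

lemma st_le_pow (j : ℕ) : st j ≤ 4 ^ j := by
  induction j with
  | zero => simp [st]
  | succ j ih =>
    have a : dp j ≤ j := (Nat.sub_le _ _).trans (Nat.log_le_self 2 j)
    have b : cs j ≤ 4 ^ j := by
      unfold cs
      split_ifs
      · omega
      · rw [show 4 = 2 * 2 by norm_num, mul_pow]
        exact Nat.mul_le_mul_left _ (Nat.pow_le_pow_right (by norm_num) a)
    rw [st_succ, pow_succ]
    omega

/-- Failure of the truncation estimate by the factor `L` on a greedy set of at most `m` points. -/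
def Fl (x : ℕ → Y) (xs : ℕ → StrongDual 𝕂 Y) (m : ℕ) (L : ℝ) : Prop :=
  ∃ (φ : StrongDual 𝕂 Y) (A : Finset ℕ) (t : ℝ), φ ≠ 0 ∧ A.Nonempty ∧ A.card ≤ m ∧
    (∀ n ∈ A, ∀ k : ℕ, k ∉ A → ‖φ (x k)‖ ≤ ‖φ (x n)‖) ∧ (∀ n ∈ A, t ≤ ‖φ (x n)‖) ∧
    L * ‖φ‖ ≤ t * ‖∑ n ∈ A, (φ (x n) / ((‖φ (x n)‖ : ℝ) : 𝕂)) • xs n‖

lemma Fl.mono {m m' : ℕ} {L L' : ℝ} (h : Fl x xs m L) (h1 : m ≤ m') (h2 : L' ≤ L) :
    Fl x xs m' L' := by
  obtain ⟨φ, A, t, a1, a2, a3, a4, a5, a6⟩ := h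
  exact ⟨φ, A, t, a1, a2, a3.trans h1, a4, a5,
    (mul_le_mul_of_nonneg_right h2 (norm_nonneg _)).trans a6⟩

lemma Str.fails_one (H : Str x xs) : Fl x xs 1 1 := by
  refine ⟨xs 0, {0}, 1, fun e => ?_, by simp, by simp, fun n hn k hk => ?_, fun n hn => ?_, ?_⟩
  · have := H.bi 0 0
    rw [e] at this
    simp at this
  · rw [mem_singleton] at hn hk
    simp [H.bi, hn, Ne.symm hk]
  · simp [H.bi, mem_singleton.1 hn]
  · simp [H.bi]

lemma Str.fails (H : Str x xs) (M : ℕ) : Fl x xs (2 ^ 2 ^ (M + 3)) (2 ^ M / 48) := by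
  have cf := H.coef' (G (M + 1)) (fun n => (ht n : 𝕂))
  have nh : ∀ n, ‖(ht n : 𝕂)‖ = ht n := fun n => by rw [RCLike.norm_ofReal, abs_of_pos (ht_pos n)]
  have w := wt_G M
  have ne : (G (M + 1)).Nonempty := by
    rw [nonempty_iff_ne_empty]
    intro e
    rw [e, sum_empty] at w
    exact absurd w (not_le.2 (by positivity))
  have n1 : ‖∑ n ∈ G (M + 1), (ht n : 𝕂) • xs n‖ ≤ 1 := by
    refine ContinuousLinearMap.opNorm_le_bound _ zero_le_one fun h => ?_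
    rw [_root_.sum_apply, one_mul]
    refine le_of_eq_of_le (congrArg _ (sum_congr rfl fun n hn => ?_))
      (H.low_ht h (M + 1) (st (2 ^ (M + 1 + 1))))
    rw [if_pos (mem_Ico.1 hn).2]
    rfl
  refine ⟨∑ n ∈ G (M + 1), (ht n : 𝕂) • xs n, G (M + 1), (1 / 2) ^ (M + 1), fun e => ?_, ne, ?_,
    fun n _ k hk => ?_, fun n hn => ?_, ?_⟩
  · obtain ⟨n, hn⟩ := ne
    have a := cf n
    rw [e, if_pos hn] at a
    have b := nh n
    rw [← a, _root_.zero_apply, norm_zero] at b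
    exact (ht_pos n).ne b
  · rw [G, Nat.card_Ico]
    refine (Nat.sub_le _ _).trans ((st_le_pow _).trans (le_of_eq ?_))
    rw [show 4 = 2 ^ 2 by norm_num, ← pow_mul]
    congr 1
    ring
  · rw [cf k, if_neg hk, norm_zero]
    exact norm_nonneg _
  · rw [cf n, if_pos hn, nh, ht]
    refine pow_le_pow_of_le_one (by norm_num) (by norm_num) ?_
    exact (Nat.sub_le _ _).trans (le_of_eq (mem_G.1 hn))
  · have e1 : ∑ n ∈ G (M + 1), ((∑ n ∈ G (M + 1), (ht n : 𝕂) • xs n) (x n) /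
        ((‖(∑ n ∈ G (M + 1), (ht n : 𝕂) • xs n) (x n)‖ : ℝ) : 𝕂)) • xs n =
        ∑ n ∈ G (M + 1), (1 : 𝕂) • xs n := sum_congr rfl fun n hn => by
      rw [cf n, if_pos hn, nh, div_self (by exact_mod_cast (ht_pos n).ne')]
    rw [e1]
    have c1 := H.coef' (G (M + 1)) (fun _ => (1 : 𝕂))
    have k := H.key (∑ n ∈ G (M + 1), (1 : 𝕂) • xs n)
      (fun n => by rw [c1]; split_ifs <;> simp) (G (M + 1))
      (fun n hn => by rw [c1, if_pos hn]; norm_num)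
    obtain ⟨n, hn⟩ := ne
    have s := single_le_sum (f := fun K => 1 + ∑ n ∈ G K ∩ G (M + 1), wt n)
      (fun K _ => add_nonneg zero_le_one (sum_nonneg fun n _ => (wt_pos n).le))
      (mem_image.2 ⟨n, hn, mem_G.1 hn⟩)
    simp only [inter_self] at s
    have e : (1 / 2 : ℝ) ^ (M + 1) * (2 ^ (M + 1) * 2 ^ M) = 2 ^ M := by
      rw [← mul_assoc, ← mul_pow]
      simp
    have u := mul_le_mul_of_nonneg_left (show (2 : ℝ) ^ (M + 1) * 2 ^ M ≤
      48 * ‖∑ n ∈ G (M + 1), (1 : 𝕂) • xs n‖ by linarith)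
      (show (0 : ℝ) ≤ (1 / 2) ^ (M + 1) by positivity)
    have v := mul_le_mul_of_nonneg_left n1 (show (0 : ℝ) ≤ 2 ^ M / 48 by positivity)
    linarith

theorem Str.rate (H : Str x xs) (m : ℕ) (hm : 1 ≤ m) : Fl x xs m (Real.log m / 768) := by
  obtain ⟨l, l1, l2⟩ : ∃ l, 2 ^ l ≤ m ∧ m < 2 ^ (l + 1) :=
    ⟨Nat.log 2 m, Nat.pow_log_le_self 2 (by omega), Nat.lt_pow_succ_log_self (by norm_num) m⟩
  have a : Real.log m ≤ (l + 1 : ℕ) := by
    have b : (m : ℝ) ≤ 2 ^ (l + 1) := by exact_mod_cast l2.le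
    refine (Real.log_le_log (by exact_mod_cast hm) b).trans ?_
    rw [Real.log_pow]
    refine mul_le_of_le_one_right (by positivity) ?_
    have := Real.log_two_lt_d9
    linarith
  by_cases c : l < 8
  · refine H.fails_one.mono hm ?_
    have : ((l + 1 : ℕ) : ℝ) ≤ (8 : ℕ) := by exact_mod_cast c
    push_cast at this a
    linarith
  obtain ⟨k, k1, k2⟩ : ∃ k, 2 ^ k ≤ l ∧ l < 2 ^ (k + 1) :=
    ⟨Nat.log 2 l, Nat.pow_log_le_self 2 (by omega), Nat.lt_pow_succ_log_self (by norm_num) l⟩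
  have k3 : 3 ≤ k := by
    by_contra d
    have := Nat.pow_le_pow_right (show 0 < 2 by norm_num) (show k + 1 ≤ 3 by omega)
    omega
  obtain ⟨M, rfl⟩ : ∃ M, k = M + 3 := ⟨k - 3, by omega⟩
  refine (H.fails M).mono ((Nat.pow_le_pow_right (by norm_num) k1).trans l1) ?_
  have : ((l + 1 : ℕ) : ℝ) ≤ (2 ^ (M + 3 + 1) : ℕ) := by exact_mod_cast k2
  push_cast at this a
  rw [pow_succ, pow_add] at this
  linarith

theorem Str.basis (H : Str x xs) : IsBasis norm x (co xs) :=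
  ⟨⟨1, H.x_le⟩, ⟨1, fun n f => (H.xs_le n f).trans_eq (one_mul _).symm⟩, H.bi, H.den⟩

theorem Str.dbasis (H : Str x xs) : IsBasis norm xs (ev 𝕂 x) := by
  refine ⟨⟨1, fun n => ContinuousLinearMap.opNorm_le_bound _ zero_le_one
    fun h => by simpa using H.xs_le n h⟩, ⟨1, fun n φ => ?_⟩, fun m n => ?_, fun φ ε hε => ?_⟩
  · exact (φ.le_opNorm_of_le (H.x_le n)).trans_eq (mul_comm _ _)
  · exact (H.bi n m).trans (by simp only [eq_comm])
  · obtain ⟨m, hm⟩ := ((H.shrink φ).eventually (gt_mem_nhds hε)).exists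
    exact ⟨_, Submodule.sum_mem _ fun n _ =>
      Submodule.smul_mem _ _ (Submodule.subset_span ⟨n, rfl⟩), hm⟩

theorem Str.isNU (H : Str x xs) : IsNU norm xs (ev 𝕂 x) := by
  intro a a0 _
  obtain ⟨k, hk⟩ := exists_pow_lt_of_lt_one a0 (show (3 / 4 : ℝ) < 1 by norm_num)
  obtain ⟨C, -, hC⟩ := H.nu k
  refine ⟨C, fun φ hc A hA => hC φ hc A fun n hn => le_trans ?_ (hA n hn)⟩
  have : (0 : ℝ) < (3 / 4) ^ k := by positivity
  rw [pow_succ]
  linarith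

theorem Str.notTQG (H : Str x xs) : ¬ IsTQG norm xs (ev 𝕂 x) := by
  rintro ⟨C, hC⟩
  obtain ⟨M, hM⟩ := pow_unbounded_of_one_lt (48 * C) (show (1 : ℝ) < 2 by norm_num)
  obtain ⟨φ, A, t, a1, a2, -, a4, a5, a6⟩ := H.fails M
  have := a6.trans (hC φ A a2 a4 t a5)
  have := le_of_mul_le_mul_right this (norm_pos_iff.2 a1)
  linarith

end Pool.Agent.E7DQ
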