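import Pool.Agent.MP_e7ec4f_an.dq.Space

/-! The basis of the space is a monotone quasi-greedy Schauder basis. -/

set_option autoImplicit false

namespace Pool.Agent.E7DQ

open Finset Filter

variable {𝕂 : Type} [RCLike 𝕂] {Y : Type} [NormedAddCommGroup Y] [NormedSpace 𝕂 Y] {x : ℕ → Y}
  {xs : ℕ → StrongDual 𝕂 Y}

lemma Str.coef (H : Str x xs) (A : Finset ℕ) (a : ℕ → 𝕂) (n : ℕ) :
    xs n (∑ k ∈ A, a k • x k) = if n ∈ A then a n else 0 := by
  rw [map_sum]
  simp only [map_smul, H.bi, smul_eq_mul, mul_ite, mul_one, mul_zero, sum_ite_eq]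

lemma Str.coef' (H : Str x xs) (A : Finset ℕ) (a : ℕ → 𝕂) (n : ℕ) :
    (∑ k ∈ A, a k • xs k) (x n) = if n ∈ A then a n else 0 := by
  rw [_root_.sum_apply]
  simp only [_root_.smul_apply, H.bi, smul_eq_mul, mul_ite, mul_one, mul_zero, sum_ite_eq']

lemma Str.xs_le (H : Str x xs) (n : ℕ) (h : Y) : ‖xs n h‖ ≤ ‖h‖ := by
  have := H.low h _ _ (adm_one n)
  simpa only [ite_mul, one_mul, zero_mul, sum_ite_eq', if_pos (mem_G.2 rfl)] using this

lemma Str.x_le (H : Str x xs) (n : ℕ) : ‖x n‖ ≤ 1 := by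
  refine H.up _ 1 zero_le_one fun M γ a => ?_
  simp only [H.bi, mul_ite, mul_one, mul_zero, sum_ite_eq']
  split_ifs
  · exact a.1 n
  · simp

lemma adm_ht (M k : ℕ) : Adm M (fun n => if n ∈ G M ∧ n < k then (ht n : 𝕂) else 0) := by
  refine ⟨fun n => ?_, fun n hn => if_neg fun e => hn e.1, Or.inr ⟨k, fun n hn => by simp [hn]⟩⟩
  dsimp only
  split_ifs
  · rw [RCLike.norm_ofReal, abs_of_pos (ht_pos n)]
    exact ht_le n
  · simp

lemma Str.low_ht (H : Str x xs) (h : Y) (M k : ℕ) :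
    ‖∑ n ∈ G M, (if n < k then (ht n : 𝕂) * xs n h else 0)‖ ≤ ‖h‖ := by
  refine le_of_eq_of_le (congrArg _ (sum_congr rfl fun n hn => ?_)) (H.low h M _ (adm_ht M k))
  simp [hn]

lemma adm_res {M : ℕ} {γ : ℕ → 𝕂} (a : Adm M γ) (b : ∑ n ∈ G M, wt n * ‖γ n‖ ≤ 1)
    (A : Finset ℕ) : Adm M (fun n => if n ∈ A then γ n else 0) := by
  have k : ∀ n, ‖if n ∈ A then γ n else 0‖ ≤ ‖γ n‖ := fun n => by split_ifs <;> simp
  refine ⟨fun n => (k n).trans (a.1 n), fun n hn => by simp [a.2.1 n hn], Or.inl ?_⟩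
  exact (sum_le_sum fun n _ => mul_le_mul_of_nonneg_left (k n) (wt_pos n).le).trans b

lemma Str.low_res (H : Str x xs) (h : Y) {M : ℕ} {γ : ℕ → 𝕂} (a : Adm M γ)
    (b : ∑ n ∈ G M, wt n * ‖γ n‖ ≤ 1) (A : Finset ℕ) :
    ‖∑ n ∈ G M, γ n * (if n ∈ A then xs n h else 0)‖ ≤ ‖h‖ := by
  refine le_of_eq_of_le (congrArg _ (sum_congr rfl fun n _ => ?_)) (H.low h M _ (adm_res a b A))
  split_ifs <;> simp

lemma Str.mono (H : Str x xs) (h : Y) (m : ℕ) : ‖∑ n ∈ range m, xs n h • x n‖ ≤ ‖h‖ := by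
  refine H.up _ _ (norm_nonneg _) fun M γ a => ?_
  simp only [H.coef]
  rcases a.2.2 with b | ⟨k, b⟩
  · exact H.low_res h a b _
  · refine le_of_eq_of_le (congrArg _ (sum_congr rfl fun n hn => ?_)) (H.low_ht h M (min k m))
    rw [b n hn]
    by_cases e1 : n < k <;> by_cases e2 : n < m <;> simp [e1, e2]

lemma Str.span_fin (H : Str x xs) {g : Y} (hg : g ∈ Submodule.span 𝕂 (Set.range x)) :
    ∃ m0, ∀ m, m0 ≤ m → ∑ n ∈ range m, xs n g • x n = g := by
  induction hg using Submodule.span_induction with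
  | mem g hg =>
    obtain ⟨k, rfl⟩ := hg
    refine ⟨k + 1, fun m hm => ?_⟩
    simp only [H.bi, ite_smul, one_smul, zero_smul, sum_ite_eq', mem_range]
    exact if_pos hm
  | zero => exact ⟨0, fun m _ => by simp⟩
  | add a b _ _ ha hb =>
    obtain ⟨m1, h1⟩ := ha
    obtain ⟨m2, h2⟩ := hb
    refine ⟨m1 + m2, fun m hm => ?_⟩
    simp only [map_add, add_smul, sum_add_distrib]
    rw [h1 m (by omega), h2 m (by omega)]
  | smul c a _ ha =>
    obtain ⟨m1, h1⟩ := ha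
    refine ⟨m1, fun m hm => ?_⟩
    simp only [map_smul, smul_assoc, ← smul_sum]
    rw [h1 m hm]

theorem Str.schauder (H : Str x xs) (h : Y) :
    Tendsto (fun m => ‖h - ∑ n ∈ range m, xs n h • x n‖) atTop (nhds 0) := by
  refine Metric.tendsto_atTop.2 fun ε hε => ?_
  obtain ⟨g, hg, hd⟩ := H.den h (ε / 2) (by positivity)
  obtain ⟨m0, h0⟩ := H.span_fin hg
  refine ⟨m0, fun m hm => ?_⟩
  have e : h - ∑ n ∈ range m, xs n h • x n = (h - g) - ∑ n ∈ range m, xs n (h - g) • x n := by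
    simp only [map_sub, sub_smul, sum_sub_distrib]
    rw [h0 m hm]
    abel
  rw [Real.dist_eq, sub_zero, abs_norm, e]
  have := H.mono (h - g) m
  have := norm_sub_le (h - g) (∑ n ∈ range m, xs n (h - g) • x n)
  linarith

lemma Str.test (H : Str x xs) (h : Y) {M : ℕ} {E : Finset ℕ} (hE : E ⊆ G M) {a : ℕ → 𝕂}
    (ha : ∀ n ∈ E, ‖a n‖ ≤ 1) {W : ℝ} (h1 : 1 ≤ W) (h2 : ∑ n ∈ E, wt n ≤ W) :
    ‖∑ n ∈ E, a n * xs n h‖ ≤ W * ‖h‖ := by
  have hW : 0 < W := by linarith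
  have k : ∀ n, ‖if n ∈ E then ((W⁻¹ : ℝ) : 𝕂) * a n else 0‖ ≤ if n ∈ E then W⁻¹ else 0 := by
    intro n
    split_ifs with e
    · rw [norm_mul, RCLike.norm_ofReal, abs_of_pos (inv_pos.2 hW)]
      exact mul_le_of_le_one_right (inv_pos.2 hW).le (ha n e)
    · simp
  have ad : Adm M (fun n => if n ∈ E then ((W⁻¹ : ℝ) : 𝕂) * a n else 0) := by
    refine ⟨fun n => (k n).trans ?_, fun n hn => if_neg fun e => hn (hE e), Or.inl ?_⟩
    · split_ifs
      · exact inv_le_one_of_one_le₀ h1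
      · exact zero_le_one
    · refine (sum_le_sum fun n _ => mul_le_mul_of_nonneg_left (k n) (wt_pos n).le).trans ?_
      simp only [mul_ite, mul_zero, sum_ite_mem, inter_eq_right.2 hE, ← sum_mul]
      rw [← div_eq_mul_inv, div_le_one hW]
      exact h2
  have := H.low h M _ ad
  simp only [ite_mul, zero_mul, sum_ite_mem, inter_eq_right.2 hE, mul_assoc, ← mul_sum] at this
  rw [norm_mul, RCLike.norm_ofReal, abs_of_pos (inv_pos.2 hW), inv_mul_le_iff₀ hW] at this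
  exact this

lemma geo (n : ℕ) : ∑ j ∈ range n, (2 : ℝ) ^ j ≤ 2 ^ n := by
  induction n with
  | zero => simp
  | succ n ih => rw [sum_range_succ, pow_succ]; linarith

theorem Str.qg (H : Str x xs) (h : Y) (A : Finset ℕ)
    (hA : ∀ n ∈ A, ∀ k, k ∉ A → ‖xs k h‖ ≤ ‖xs n h‖) : ‖∑ n ∈ A, xs n h • x n‖ ≤ 4 * ‖h‖ := by
  have hR := norm_nonneg h
  rcases A.eq_empty_or_nonempty with rfl | hne
  · simp
  obtain ⟨n0, hn0, hmin⟩ := exists_min_image A (fun n => ‖xs n h‖) hne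
  have hout := hA n0 hn0
  have t0 := norm_nonneg (xs n0 h)
  generalize ‖xs n0 h‖ = t at hmin hout t0
  refine H.up _ _ (by positivity) fun M γ a => ?_
  simp only [H.coef]
  rcases a.2.2 with b | ⟨k, b⟩
  · exact (H.low_res h a b _).trans (by linarith)
  have ex : ∃ j, ‖h‖ < t * 2 ^ j ∨ 2 ^ (M + 1) ≤ j := ⟨_, Or.inr le_rfl⟩
  obtain ⟨J, J1, J2⟩ : ∃ J, (‖h‖ < t * 2 ^ J ∨ 2 ^ (M + 1) ≤ J) ∧ ∀ j < J, t * 2 ^ j ≤ ‖h‖ := by
    classical
    exact ⟨Nat.find ex, Nat.find_spec ex, fun j hj => not_lt.1 fun e => Nat.find_min ex hj (Or.inl e)⟩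
  set E := (G M).filter (fun n => st J ≤ n ∧ n < k ∧ n ∈ A) with hE
  have dec : ∑ n ∈ G M, γ n * (if n ∈ A then xs n h else 0) =
      ∑ n ∈ G M, (if n < min k (st J) then (ht n : 𝕂) * xs n h else 0) -
      ∑ n ∈ G M, (if n < min k (st J) ∧ n ∉ A then (ht n : 𝕂) * xs n h else 0) +
      ∑ n ∈ E, (ht n : 𝕂) * xs n h := by
    rw [hE, sum_filter, ← sum_sub_distrib, ← sum_add_distrib]
    refine sum_congr rfl fun n hn => ?_
    rw [b n hn]
    have e4 : st J ≤ n ↔ ¬ n < st J := not_lt.symm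
    simp only [e4, lt_min_iff]
    by_cases e1 : n < k <;> by_cases e2 : n < st J <;> by_cases e3 : n ∈ A <;>
      simp [e1, e2, e3]
  have t1 := H.low_ht h M (min k (st J))
  have t2 : ‖∑ n ∈ G M, (if n < min k (st J) ∧ n ∉ A then (ht n : 𝕂) * xs n h else 0)‖ ≤
      2 * ‖h‖ := by
    rw [← sum_filter]
    have s1 : ∑ n ∈ Ico (st 0) (st J), ht n ≤ ∑ j ∈ range J, (2 : ℝ) ^ j := by
      rw [sum_blocks _ (Nat.zero_le J), ← range_eq_Ico]
      exact sum_le_sum fun j _ => sum_ht j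
    have s2 : t * ∑ j ∈ range J, (2 : ℝ) ^ j ≤ 2 * ‖h‖ := by
      cases J with
      | zero => simp
      | succ J =>
        have := J2 J (by omega)
        have := mul_le_mul_of_nonneg_left (geo (J + 1)) t0
        rw [pow_succ] at this
        linarith
    refine (norm_sum_le _ _).trans (le_trans ?_ ((mul_le_mul_of_nonneg_left s1 t0).trans s2))
    rw [mul_sum]
    refine (sum_le_sum (g := fun n => t * ht n) fun n hn => ?_).trans
      (sum_le_sum_of_subset_of_nonneg (fun n hn => ?_) fun n _ _ => mul_nonneg t0 (ht_pos n).le)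
    · rw [norm_mul, RCLike.norm_ofReal, abs_of_pos (ht_pos n), mul_comm]
      exact mul_le_mul_of_nonneg_right (hout n (mem_filter.1 hn).2.2) (ht_pos n).le
    · have := (mem_filter.1 hn).2.1
      rw [mem_Ico]
      exact ⟨by simp [st], by omega⟩
  have hs : E ⊆ G M := filter_subset _ _
  have t3 : ∑ n ∈ E, wt n ≤ 1 := by
    by_contra c
    have c := not_le.1 c
    choose σ σ1 σ2 using fun n => RCLike.exists_norm_eq_mul_self (xs n h)
    have u := H.test h hs (a := σ) (fun n _ => (σ1 n).le) c.le le_rfl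
    simp only [← σ2] at u
    rw [← RCLike.ofReal_sum, RCLike.norm_ofReal,
      abs_of_nonneg (sum_nonneg fun n _ => norm_nonneg _), sum_mul] at u
    have ne : E.Nonempty := by
      rw [nonempty_iff_ne_empty]
      intro e
      rw [e, sum_empty] at c
      linarith
    refine absurd u (not_le.2 (sum_lt_sum_of_nonempty ne fun n hn => ?_))
    obtain ⟨n1, n2, -, n4⟩ := mem_filter.1 hn
    have n5 := st_le.1 n2
    have n6 := (mem_G'.1 n1).2
    have n7 : ‖h‖ < t * 2 ^ blk n := (J1.resolve_right (by omega)).trans_le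
      (mul_le_mul_of_nonneg_left (pow_le_pow_right₀ (by norm_num) n5) t0)
    refine lt_of_lt_of_le ?_ (hmin n n4)
    rw [wt, one_div, inv_pow, inv_mul_lt_iff₀ (by positivity), mul_comm]
    exact n7
  have t4 := H.test h hs (a := fun n => (ht n : 𝕂)) (fun n _ => by
    rw [RCLike.norm_ofReal, abs_of_pos (ht_pos n)]
    exact ht_le n) le_rfl t3
  rw [dec]
  refine (norm_add_le _ _).trans ?_
  have := norm_sub_le (∑ n ∈ G M, (if n < min k (st J) then (ht n : 𝕂) * xs n h else 0))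
    (∑ n ∈ G M, (if n < min k (st J) ∧ n ∉ A then (ht n : 𝕂) * xs n h else 0))
  linarith

end Pool.Agent.E7DQ
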