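import Pool.Agent.MP_e7ec4f_an.dq.Tree

/-! The blocks, the norming family and the space. -/

set_option autoImplicit false

namespace Pool.Agent.E7DQ

open Finset
open scoped ENNReal

/-- The depth of the block `j`. -/
def dp (j : ℕ) : ℕ := Nat.log 2 j - padicValNat 2 j

/-- The size of the block `j`. -/
def cs (j : ℕ) : ℕ := if j = 0 then 0 else 2 ^ j * 2 ^ dp j

/-- The first point of the block `j`. -/
def st (j : ℕ) : ℕ := ∑ i ∈ range j, cs i

lemma st_succ (j : ℕ) : st (j + 1) = st j + cs j := sum_range_succ _ _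

lemma st_mono : Monotone st := monotone_nat_of_le_succ fun j => by rw [st_succ]; omega

lemma st_one : st 1 = 0 := by simp [st, cs]

lemma le_st (n : ℕ) : n ≤ st (n + 1) := by
  induction n with
  | zero => omega
  | succ n ih =>
    rw [st_succ]
    have : 0 < cs (n + 1) := by
      unfold cs
      rw [if_neg (by omega)]
      positivity
    omega

lemma ex_blk (n : ℕ) : ∃ j, n < st (j + 1) := ⟨n + 1, le_st (n + 1)⟩

/-- The block of the point `n`. -/
def blk (n : ℕ) : ℕ := Nat.find (ex_blk n)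

lemma lt_st {n j : ℕ} : n < st j ↔ blk n < j := by
  constructor
  · intro h
    cases j with
    | zero => simp [st] at h
    | succ j => exact Nat.lt_succ_of_le (Nat.find_min' (ex_blk n) h)
  · exact fun h => (Nat.find_spec (ex_blk n)).trans_le (st_mono h)

lemma st_le {n j : ℕ} : st j ≤ n ↔ j ≤ blk n := by
  rw [← not_lt, lt_st, not_lt]

lemma blk_pos (n : ℕ) : 1 ≤ blk n := st_le.1 (by rw [st_one]; omega)

/-- The block `j`. -/
def P (j : ℕ) : Finset ℕ := Ico (st j) (st (j + 1))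

/-- The group `M`. -/
def G (M : ℕ) : Finset ℕ := Ico (st (2 ^ M)) (st (2 ^ (M + 1)))

lemma mem_P {n j : ℕ} : n ∈ P j ↔ blk n = j := by
  rw [P, mem_Ico, st_le, lt_st]
  omega

lemma card_P (j : ℕ) : (P j).card = cs j := by
  rw [P, Nat.card_Ico, st_succ]
  omega

lemma mem_G' {n M : ℕ} : n ∈ G M ↔ 2 ^ M ≤ blk n ∧ blk n < 2 ^ (M + 1) := by
  rw [G, mem_Ico, st_le, lt_st]

/-- The group of the point `n`. -/
def grp (n : ℕ) : ℕ := Nat.log 2 (blk n)

lemma mem_G {n M : ℕ} : n ∈ G M ↔ grp n = M := by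
  have := blk_pos n
  rw [mem_G', grp, Nat.log_eq_iff (Or.inr ⟨by norm_num, by omega⟩)]

lemma sum_blocks {E : Type} [AddCommMonoid E] (F : ℕ → E) {a b : ℕ} (h : a ≤ b) :
    ∑ n ∈ Ico (st a) (st b), F n = ∑ j ∈ Ico a b, ∑ n ∈ P j, F n := by
  induction b, h using Nat.le_induction with
  | base => simp
  | succ b h ih =>
    rw [sum_Ico_succ_top h, ← ih, P,
      sum_Ico_consecutive _ (st_mono h) (st_mono (Nat.le_succ b))]

/-- The weight of a point. -/
noncomputable def wt (n : ℕ) : ℝ := (1 / 2) ^ blk n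

/-- The height of the summing functional at a point. -/
noncomputable def ht (n : ℕ) : ℝ := (1 / 2) ^ dp (blk n)

lemma wt_pos (n : ℕ) : 0 < wt n := by unfold wt; positivity

lemma wt_le (n : ℕ) : wt n ≤ 1 := pow_le_one₀ (by norm_num) (by norm_num)

lemma ht_pos (n : ℕ) : 0 < ht n := by unfold ht; positivity

lemma ht_le (n : ℕ) : ht n ≤ 1 := pow_le_one₀ (by norm_num) (by norm_num)

lemma two_dp {j M : ℕ} (h1 : 2 ^ M ≤ j) (h2 : j < 2 ^ (M + 1)) :
    (2 : ℝ) ^ dp j = 2 ^ M * lam j := by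
  have e : Nat.log 2 j = M := Nat.log_eq_of_pow_le_of_lt_pow h1 h2
  have l : padicValNat 2 j ≤ M := e ▸ padicValNat_le_nat_log j
  obtain ⟨d, hd⟩ := Nat.exists_eq_add_of_le l
  have : dp j = d := by unfold dp; omega
  rw [this, lam]
  generalize padicValNat 2 j = v at hd
  rw [hd, pow_add, one_div, inv_pow]
  field_simp

lemma sum_wt {j : ℕ} (h : 1 ≤ j) : ∑ n ∈ P j, wt n = 2 ^ dp j := by
  rw [sum_congr rfl (g := fun _ => (1 / 2 : ℝ) ^ j) fun n hn => by rw [wt, mem_P.1 hn], sum_const,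
    card_P, cs, if_neg (by omega), nsmul_eq_mul, one_div, inv_pow]
  push_cast
  field_simp

lemma sum_ht (j : ℕ) : ∑ n ∈ P j, ht n ≤ 2 ^ j := by
  rw [sum_congr rfl (g := fun _ => (1 / 2 : ℝ) ^ dp j) fun n hn => by rw [ht, mem_P.1 hn],
    sum_const, card_P, cs, nsmul_eq_mul, one_div, inv_pow]
  split_ifs
  · simp
  · push_cast
    apply le_of_eq
    field_simp

variable {𝕂 : Type} [RCLike 𝕂]

/-- The norming functionals of the group `M`. -/
def Adm (M : ℕ) (γ : ℕ → 𝕂) : Prop :=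
  (∀ n, ‖γ n‖ ≤ 1) ∧ (∀ n, n ∉ G M → γ n = 0) ∧
    (∑ n ∈ G M, wt n * ‖γ n‖ ≤ 1 ∨ ∃ k, ∀ n ∈ G M, γ n = if n < k then (ht n : 𝕂) else 0)

lemma adm_one (n : ℕ) : Adm (grp n) (fun k => if k = n then (1 : 𝕂) else 0) := by
  refine ⟨fun k => by dsimp only; split_ifs <;> simp, fun k hk => if_neg fun e => hk (mem_G.2 (by rw [e])),
    Or.inl ?_⟩
  rw [sum_eq_single n (fun k _ hk => by simp [hk]) fun h => absurd (mem_G.2 rfl) h]
  simpa using wt_le n

/-- The properties of the space that are used. -/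
structure Str {Y : Type} [NormedAddCommGroup Y] [NormedSpace 𝕂 Y] (x : ℕ → Y)
    (xs : ℕ → StrongDual 𝕂 Y) : Prop where
  bi : ∀ m n, xs m (x n) = if m = n then 1 else 0
  low : ∀ h M γ, Adm M γ → ‖∑ n ∈ G M, γ n * xs n h‖ ≤ ‖h‖
  up : ∀ h (C : ℝ), 0 ≤ C → (∀ M γ, Adm M γ → ‖∑ n ∈ G M, γ n * xs n h‖ ≤ C) → ‖h‖ ≤ C
  den : ∀ h (ε : ℝ), 0 < ε → ∃ g ∈ Submodule.span 𝕂 (Set.range x), ‖h - g‖ < ε

/-- The index set of the norming family. -/
def Ix (𝕂 : Type) [RCLike 𝕂] : Type := {p : ℕ × (ℕ → 𝕂) // Adm p.1 p.2}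

/-- The ambient space. -/
abbrev Amb (𝕂 : Type) [RCLike 𝕂] : Type := lp (fun _ : Ix 𝕂 => 𝕂) ∞

/-- The basis vectors in the ambient space. -/
noncomputable def yv (n : ℕ) : Amb 𝕂 :=
  ⟨fun γ => γ.1.2 n, memℓp_infty ⟨1, by rintro _ ⟨γ, rfl⟩; exact γ.2.1 n⟩⟩

/-- The index of the coordinate functional. -/
def dl (n : ℕ) : Ix 𝕂 := ⟨(grp n, fun k => if k = n then 1 else 0), adm_one n⟩

theorem exists_space (𝕂 : Type) [RCLike 𝕂] : ∃ (Y : Type) (_ : NormedAddCommGroup Y)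
    (_ : NormedSpace 𝕂 Y) (_ : CompleteSpace Y) (x : ℕ → Y) (xs : ℕ → StrongDual 𝕂 Y),
    Str x xs := by
  let S : Submodule 𝕂 (Amb 𝕂) := (Submodule.span 𝕂 (Set.range yv)).topologicalClosure
  let ev : Ix 𝕂 → Amb 𝕂 →L[𝕂] 𝕂 := fun γ => lp.evalCLM 𝕂 (fun _ : Ix 𝕂 => 𝕂) ∞ γ
  have hev : ∀ γ f, ev γ f = f γ := fun _ _ => rfl
  let x : ℕ → S := fun n => ⟨yv n, Submodule.le_topologicalClosure _
    (Submodule.subset_span ⟨n, rfl⟩)⟩
  let xs : ℕ → StrongDual 𝕂 S := fun n => (ev (dl n)).comp S.subtypeL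
  have rep : ∀ (h : S) (γ : Ix 𝕂), (h : Amb 𝕂) γ = ∑ n ∈ G γ.1.1, γ.1.2 n * xs n h := by
    intro h γ
    have := ContinuousLinearMap.eqOn_closure_span (s := Set.range yv) (f := ev γ)
      (g := ∑ n ∈ G γ.1.1, γ.1.2 n • ev (dl n)) (by
        rintro _ ⟨k, rfl⟩
        rw [_root_.sum_apply]
        show γ.1.2 k = ∑ n ∈ G γ.1.1, γ.1.2 n * (if k = n then 1 else 0)
        simp only [mul_ite, mul_one, mul_zero, sum_ite_eq]
        split_ifs with e
        · rfl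
        · exact γ.2.2.1 k e) h.2
    rw [_root_.sum_apply] at this
    exact this
  refine ⟨S, inferInstance, inferInstance,
    (Submodule.isClosed_topologicalClosure _).completeSpace_coe, x, xs, fun m n => ?_,
    fun h M γ a => ?_, fun h C hC a => ?_, fun h ε hε => ?_⟩
  · show (if n = m then (1 : 𝕂) else 0) = _
    simp only [eq_comm]
  · rw [← rep h ⟨(M, γ), a⟩]
    exact lp.norm_apply_le_norm (by simp) (h : Amb 𝕂) _
  · refine lp.norm_le_of_forall_le (f := (h : Amb 𝕂)) hC fun γ => ?_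
    rw [rep h γ]
    exact a _ _ γ.2
  · obtain ⟨g, hg, hd⟩ := Metric.mem_closure_iff.1 h.2 ε hε
    have : ∀ g ∈ Submodule.span 𝕂 (Set.range (yv : ℕ → Amb 𝕂)),
        ∃ g' ∈ Submodule.span 𝕂 (Set.range x), (g' : Amb 𝕂) = g := by
      intro g hg
      induction hg using Submodule.span_induction with
      | mem g hg =>
        obtain ⟨n, rfl⟩ := hg
        exact ⟨x n, Submodule.subset_span ⟨n, rfl⟩, rfl⟩
      | zero => exact ⟨0, zero_mem _, rfl⟩
      | add a b _ _ ha hb =>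
        obtain ⟨a', a1, rfl⟩ := ha
        obtain ⟨b', b1, rfl⟩ := hb
        exact ⟨a' + b', add_mem a1 b1, rfl⟩
      | smul c a _ ha =>
        obtain ⟨a', a1, rfl⟩ := ha
        exact ⟨c • a', Submodule.smul_mem _ c a1, rfl⟩
    obtain ⟨g', g1, rfl⟩ := this g hg
    refine ⟨g', g1, ?_⟩
    rw [dist_eq_norm] at hd
    exact hd

end Pool.Agent.E7DQ
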