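import Mathlib

/-! Selection on the binary tree of dyadic intervals. -/

set_option autoImplicit false

namespace Pool.Agent.E7DQ

open Finset

/-- The weight of the position `p`. -/
noncomputable def lam (p : ℕ) : ℝ := (1 / 2) ^ padicValNat 2 p

lemma lam_pos (p : ℕ) : 0 < lam p := by unfold lam; positivity

lemma val_mid (s t : ℕ) : padicValNat 2 (2 ^ (s + 1) * t + 2 ^ s) = s := by
  have e : 2 ^ (s + 1) * t + 2 ^ s = 2 ^ s * (2 * t + 1) := by ring
  rw [e, padicValNat.mul (by positivity) (by omega), padicValNat.prime_pow,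
    padicValNat.eq_zero_of_not_dvd (by omega), add_zero]

variable {𝕂 : Type} [RCLike 𝕂]

/-- The data produced on the interval `[L, L + 2 ^ s)`. -/
structure Sel (θ : ℕ → ℝ) (τ : ℕ → 𝕂) (L s : ℕ) (η : ℕ → ℝ) (κ : ℕ → 𝕂) (H : ℝ) : Prop where
  e01 : ∀ p, η p = 0 ∨ η p = 1
  eL : η L = 0
  H0 : 0 ≤ H
  H2 : H ≤ 2
  ps : ∀ k, L ≤ k → k ≤ L + 2 ^ s → ‖∑ p ∈ Ico L k, ((η p : 𝕂) * τ p - κ p)‖ ≤ H
  tot : ∑ p ∈ Ico L (L + 2 ^ s), ((η p : 𝕂) * τ p - κ p) = 0
  k2 : ∀ p, ‖κ p‖ ≤ 2
  kL : ‖κ L‖ ≤ H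
  dam : 2 * (∑ p ∈ Ico (L + 1) (L + 2 ^ s), ‖κ p‖ * lam p + ‖κ L‖ * (1 / 2) ^ s) ≤
    ∑ p ∈ Ico (L + 1) (L + 2 ^ s), η p * θ p * lam p
  kept : 2 * H * (1 / 2) ^ s ≤ ∑ p ∈ Ico (L + 1) (L + 2 ^ s), η p * θ p * lam p
  all : H ≤ 1 → ∑ p ∈ Ico (L + 1) (L + 2 ^ s), θ p * lam p ≤
    ∑ p ∈ Ico (L + 1) (L + 2 ^ s), η p * θ p * lam p
  sat : 1 < H → ∑ p ∈ Ico (L + 1) (L + 2 ^ s), θ p * lam p + 2 * (1 / 2) ^ s ≤
    2 * ∑ p ∈ Ico (L + 1) (L + 2 ^ s), η p * θ p * lam p

lemma split3 {M : Type} [AddCommMonoid M] (f : ℕ → M) {a c b : ℕ} (h1 : a ≤ c) (h2 : c + 1 ≤ b) :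
    ∑ p ∈ Ico a b, f p = ∑ p ∈ Ico a c, f p + f c + ∑ p ∈ Ico (c + 1) b, f p := by
  rw [← sum_Ico_succ_top h1, sum_Ico_consecutive _ (by omega) h2]

theorem exists_sel (θ : ℕ → ℝ) (τ : ℕ → 𝕂) (h1 : ∀ p, θ p ≤ 1) (h2 : ∀ p, ‖τ p‖ ≤ θ p) (s : ℕ) :
    ∀ t, ∃ η κ H, Sel θ τ (2 ^ s * t) s η κ H := by
  have h0 : ∀ p, 0 ≤ θ p := fun p => (norm_nonneg _).trans (h2 p)
  induction s with
  | zero =>
    intro t
    refine ⟨fun _ => 0, fun _ => 0, 0, fun _ => Or.inl rfl, rfl, le_rfl, by norm_num, ?_, ?_,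
      ?_, ?_, ?_, ?_, ?_, ?_⟩ <;> simp
  | succ s ih =>
    intro t
    obtain ⟨η1, κ1, H1, A⟩ := ih (2 * t)
    obtain ⟨η2, κ2, H2, B⟩ := ih (2 * t + 1)
    have hp : 1 ≤ 2 ^ s := Nat.one_le_two_pow
    have eL : 2 ^ s * (2 * t) = 2 ^ (s + 1) * t := by ring
    have ec : 2 ^ s * (2 * t + 1) = 2 ^ (s + 1) * t + 2 ^ s := by ring
    have lc : lam (2 ^ (s + 1) * t + 2 ^ s) = (1 / 2) ^ s := by unfold lam; rw [val_mid]
    rw [eL] at A
    rw [ec] at B
    have ee : 2 ^ (s + 1) * t + 2 ^ (s + 1) = 2 ^ (s + 1) * t + 2 ^ s + 2 ^ s := by ring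
    generalize 2 ^ (s + 1) * t = L at A B lc ee ⊢
    obtain ⟨c, hc⟩ : ∃ c, c = L + 2 ^ s := ⟨_, rfl⟩
    obtain ⟨e, he, he0, he1⟩ : ∃ e : ℝ, (e = 0 ∨ e = 1) ∧ (1 < max H1 H2 → e = 0) ∧
        (max H1 H2 ≤ 1 → e = 1) := by
      by_cases h : max H1 H2 ≤ 1
      · exact ⟨1, Or.inr rfl, fun k => absurd h (not_le.2 k), fun _ => rfl⟩
      · exact ⟨0, Or.inl rfl, fun _ => rfl, fun k => absurd k h⟩
    have e0 : 0 ≤ e := by rcases he with r | r <;> simp [r]
    have ne : ‖(e : 𝕂) * τ c‖ ≤ e * θ c := by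
      rw [norm_mul, RCLike.norm_ofReal, abs_of_nonneg e0]
      exact mul_le_mul_of_nonneg_left (h2 c) e0
    have m1 := le_max_left H1 H2
    have m2 := le_max_right H1 H2
    have et : 0 ≤ e * θ c := mul_nonneg e0 (h0 c)
    have hH : max H1 H2 + e * θ c ≤ 2 := by
      by_cases h : max H1 H2 ≤ 1
      · have := h1 c
        rw [he1 h]
        linarith
      · rw [he0 (not_le.1 h), zero_mul, add_zero]
        exact max_le A.H2 B.H2
    set η : ℕ → ℝ := fun p => if p < c then η1 p else if p = c then e else η2 p with hη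
    set κ : ℕ → 𝕂 := fun p => if p < c then (κ1 p + if p = L then (e : 𝕂) * τ c else 0) else κ2 p
      with hκ
    have sL : ∀ k, L < k → k ≤ c → ∑ p ∈ Ico L k, ((η p : 𝕂) * τ p - κ p) =
        ∑ p ∈ Ico L k, ((η1 p : 𝕂) * τ p - κ1 p) - (e : 𝕂) * τ c := by
      intro k a b
      have : ∑ p ∈ Ico L k, (if p = L then (e : 𝕂) * τ c else 0) = (e : 𝕂) * τ c := by
        rw [sum_ite_eq', if_pos (mem_Ico.2 ⟨le_rfl, a⟩)]
      rw [← this, ← sum_sub_distrib]
      refine sum_congr rfl fun p hp => ?_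
      have : p < c := by have := mem_Ico.1 hp; omega
      simp only [hη, hκ, if_pos this]
      ring
    have sR : ∀ k, c < k → ∑ p ∈ Ico L k, ((η p : 𝕂) * τ p - κ p) =
        ∑ p ∈ Ico c k, ((η2 p : 𝕂) * τ p - κ2 p) := by
      intro k a
      have a1 := A.tot
      have a2 := B.eL
      rw [← hc] at a1 a2
      rw [split3 _ (show L ≤ c by omega) a, sL c (by omega) le_rfl, a1,
        split3 _ (le_refl c) a]
      have : ∑ p ∈ Ico (c + 1) k, ((η p : 𝕂) * τ p - κ p) =
          ∑ p ∈ Ico (c + 1) k, ((η2 p : 𝕂) * τ p - κ2 p) := by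
        refine sum_congr rfl fun p hp => ?_
        have := mem_Ico.1 hp
        simp only [hη, hκ, if_neg (show ¬ p < c by omega), if_neg (show ¬ p = c by omega)]
      rw [this]
      simp [hη, hκ, a2]
      ring
    have kp : ∑ p ∈ Ico (L + 1) (c + 2 ^ s), η p * θ p * lam p =
        ∑ p ∈ Ico (L + 1) c, η1 p * θ p * lam p + e * θ c * (1 / 2) ^ s +
          ∑ p ∈ Ico (c + 1) (c + 2 ^ s), η2 p * θ p * lam p := by
      rw [split3 _ (show L + 1 ≤ c by omega) (show c + 1 ≤ c + 2 ^ s by omega)]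
      congr 1
      · congr 1
        · refine sum_congr rfl fun p hp => ?_
          simp only [hη, if_pos (mem_Ico.1 hp).2]
        · rw [← lc, ← hc]
          simp [hη]
      · refine sum_congr rfl fun p hp => ?_
        have := mem_Ico.1 hp
        simp only [hη, if_neg (show ¬ p < c by omega), if_neg (show ¬ p = c by omega)]
    have dp : ∑ p ∈ Ico (L + 1) (c + 2 ^ s), ‖κ p‖ * lam p =
        ∑ p ∈ Ico (L + 1) c, ‖κ1 p‖ * lam p + ‖κ2 c‖ * (1 / 2) ^ s +
          ∑ p ∈ Ico (c + 1) (c + 2 ^ s), ‖κ2 p‖ * lam p := by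
      rw [split3 _ (show L + 1 ≤ c by omega) (show c + 1 ≤ c + 2 ^ s by omega)]
      congr 1
      · congr 1
        · refine sum_congr rfl fun p hp => ?_
          have := mem_Ico.1 hp
          simp only [hκ, if_pos this.2, if_neg (show ¬ p = L by omega), add_zero]
        · rw [← lc, ← hc]
          simp [hκ]
      · refine sum_congr rfl fun p hp => ?_
        have := mem_Ico.1 hp
        simp only [hκ, if_neg (show ¬ p < c by omega)]
    have tp : ∑ p ∈ Ico (L + 1) (c + 2 ^ s), θ p * lam p =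
        ∑ p ∈ Ico (L + 1) c, θ p * lam p + θ c * (1 / 2) ^ s +
          ∑ p ∈ Ico (c + 1) (c + 2 ^ s), θ p * lam p := by
      rw [split3 _ (show L + 1 ≤ c by omega) (show c + 1 ≤ c + 2 ^ s by omega), ← lc, ← hc]
    have kL : ‖κ L‖ ≤ ‖κ1 L‖ + e * θ c := by
      simp only [hκ, if_pos (show L < c by omega), if_true]
      exact (norm_add_le _ _).trans (by linarith)
    have hw : (0 : ℝ) < (1 / 2) ^ s := by positivity
    have a1 := A.dam
    have a2 := A.kept
    have a3 := A.all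
    have a4 := A.sat
    have b1 := B.dam
    have b2 := B.kept
    have b3 := B.all
    have b4 := B.sat
    have a5 := A.kL
    have a6 := A.H0
    have b6 := B.H0
    rw [← hc] at a1 a2 a3 a4 b1 b2 b3 b4
    have K2 : 2 * (max H1 H2 + e * θ c) * (1 / 2) ^ (s + 1) ≤
        ∑ p ∈ Ico (L + 1) (c + 2 ^ s), η p * θ p * lam p := by
      rw [kp, pow_succ]
      have : max H1 H2 * (1 / 2) ^ s ≤ (H1 + H2) * (1 / 2) ^ s :=
        mul_le_mul_of_nonneg_right (max_le (by linarith) (by linarith)) hw.le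
      have := mul_nonneg a6 hw.le
      have := mul_nonneg b6 hw.le
      have := mul_le_mul_of_nonneg_right (max_le (show H1 ≤ H1 + H2 by linarith)
        (show H2 ≤ H1 + H2 by linarith)) hw.le
      linarith
    refine ⟨η, κ, max H1 H2 + e * θ c, fun p => ?_, ?_, by linarith, hH, fun k k1 k2 => ?_, ?_,
      fun p => ?_, by linarith, ?_, ?_, fun h => ?_, fun h => ?_⟩
    · simp only [hη]
      split_ifs
      exacts [A.e01 p, he, B.e01 p]
    · simp only [hη, if_pos (show L < c by omega)]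
      exact A.eL
    · rcases eq_or_lt_of_le k1 with r | r
      · rw [← r]
        simp
        linarith
      by_cases u : k ≤ c
      · rw [sL k r u]
        have := A.ps k k1 (by omega)
        exact (norm_sub_le _ _).trans (by linarith)
      · rw [sR k (by omega)]
        have := B.ps k (by omega) (by omega)
        rw [← hc] at this
        linarith
    · have := B.tot
      rw [← hc] at this
      rw [sR _ (by omega), ee, ← hc]
      exact this
    · by_cases u : p = L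
      · rw [u]
        linarith
      · simp only [hκ, if_neg u, add_zero]
        split_ifs
        exacts [A.k2 p, B.k2 p]
    · rw [ee, ← hc, kp, dp, pow_succ]
      have := mul_le_mul_of_nonneg_right kL hw.le
      have := mul_nonneg (norm_nonneg (κ1 L)) hw.le
      linarith
    · rw [ee, ← hc]
      exact K2
    · rw [ee, ← hc, kp, tp, he1 (by linarith), one_mul]
      have := a3 (by linarith)
      have := b3 (by linarith)
      linarith
    · rw [ee, ← hc]
      by_cases u : max H1 H2 ≤ 1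
      · have c1 := a3 (by linarith)
        have c2 := b3 (by linarith)
        have : (0 : ℝ) < (1 / 2) ^ (s + 1) := by positivity
        have c3 : 2 * (1 / 2 : ℝ) ^ (s + 1) ≤ 2 * (max H1 H2 + e * θ c) * (1 / 2) ^ (s + 1) := by
          nlinarith
        have c4 := c3.trans K2
        rw [kp] at c4 ⊢
        rw [tp]
        rw [he1 u, one_mul] at c4 ⊢
        linarith
      · rw [kp, tp, he0 (not_le.1 u), pow_succ]
        have c0 := mul_le_mul_of_nonneg_right (h1 c) hw.le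
        have := mul_nonneg a6 hw.le
        have := mul_nonneg b6 hw.le
        have c1 : ∑ p ∈ Ico (L + 1) c, θ p * lam p ≤ 2 * ∑ p ∈ Ico (L + 1) c, η1 p * θ p * lam p := by
          by_cases v : H1 ≤ 1
          · have := a3 v
            linarith
          · have := a4 (not_le.1 v)
            linarith
        have c2 : ∑ p ∈ Ico (c + 1) (c + 2 ^ s), θ p * lam p ≤
            2 * ∑ p ∈ Ico (c + 1) (c + 2 ^ s), η2 p * θ p * lam p := by
          by_cases v : H2 ≤ 1
          · have := b3 v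
            linarith
          · have := b4 (not_le.1 v)
            linarith
        rcases lt_max_iff.1 (not_le.1 u) with v | v
        · have := a4 v
          linarith
        · have := b4 v
          linarith

end Pool.Agent.E7DQ
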